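import Pool.Agent.Helper13_Z3.Defs

/-!
# Few big items meet the curved side; few cuts
-/

set_option autoImplicit false

namespace Pool.Agent.Z3.H86

open Pool.Agent.Idx Pool.Agent.Idx.H48
open Pool.Agent.Z3

theorem flags_rf {T : Type} {Γ : Gram T} (b : ℕ → List T → Bool) (Big : ℕ → ℕ → Prop)
    (h : ∀ s u, b s u = true ↔ Big s (s + u.length)) (c : List (Item Γ)) :
    ∀ s, Flags Big s (rf b s c) := by
  induction c with
  | nil => intro s; trivial
  | cons x c ih =>
    intro s
    rcases x with t | ⟨A, u, b'⟩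
    · exact ih (s + 1)
    · exact ⟨h s u, ih (s + u.length)⟩

theorem cuts_le_chg (χ : ℕ → Bool) (m n N : ℕ) (hN : m + n ≤ N) :
    cuts (fun p => χ (m + p)) n ≤ (chg χ N : ℤ) := by
  classical
  unfold cuts chg
  rw [Finset.sum_boole]
  have h : (Finset.filter (fun p => p + 1 < n ∧ χ (m + p) ≠ χ (m + (p + 1)))
      (Finset.range n)).card ≤
      ((Finset.range N).filter (fun j => χ j ≠ χ (j + 1))).card := by
    apply Finset.card_le_card_of_injOn (fun p => m + p)
    · intro p hp
      simp only [Finset.coe_filter, Finset.mem_range, Set.mem_ofPred_eq] at hp ⊢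
      refine ⟨by omega, ?_⟩
      have := hp.2.2
      rw [← add_assoc] at this
      exact this
    · intro p _ q _ hpq
      simp only at hpq
      omega
  exact_mod_cast h

theorem few (hC : CvlStmt) (hG : GeoStmt) (hB : BholStmt) (hF : FchiStmt) : FewStmt := by
  intro Γ k n R sgn s A f σ c hk hn hsgn hNd hR hR1
  obtain ⟨gL, -, -, -, -, gW, -, gG2⟩ := hG n sgn hn hsgn
  obtain ⟨P, Z, hw, hP⟩ := hNd.loc
  obtain ⟨-, -, v3, -, v5, -, -, v8⟩ := hC L3 Γ (big R) (bigm R (3 * n)) s c c
  obtain ⟨-, -, w3, -, w5, -, -, w8⟩ := hC L3 Γ (bigm R (3 * n)) (big R) s c c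
  obtain ⟨r1, r2, r3⟩ := w3
  have hlen : (P ++ flat c ++ Z).length = 4 * n := by rw [← hw, gL]
  -- holes
  have hholes : (holes s (rf (bigm R (3 * n)) s c)).length ≤ 3 * k := by
    have := hB L3 V3 inferInstance evz Γ k (W n sgn) (fun s t => s + R ≤ t ∧ 3 * n < t) P Z A [f] σ
      (rf (bigm R (3 * n)) s c) hk ?_ (by rw [r2]; exact hw) (by rw [r1]; exact hNd.der)
      (r3 σ hNd.fill) (by rw [r2]; exact hNd.one) ?_
    · rw [hP] at this
      exact this
    · intro s₁ t₁ s₂ t₂ s₃ t₃ s₄ t₄ h1 h2 h3 h4 h5 h6 h7 h8 b1 b2 b3 b4 e12 e13 e14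
      rw [gL] at h8
      have e23 := (gW _ _).1 (e12.symm.trans e13)
      have hg := gG2 s₂ t₂ s₃ t₃ (by omega) (by omega) (by omega) (by omega) (by omega) (by omega)
        (by rw [e23]) (by rw [e23])
      have h9 : R * R ≤ (s₃ - s₂) * (t₂ - s₂) := Nat.mul_le_mul (by omega) (by omega)
      have := hg.2
      omega
    · rw [hP]
      apply flags_rf
      intro s' u
      simp only [bigm, decide_eq_true_eq]
      omega
  refine ⟨hholes, ?_⟩
  -- the two masks agree on the curved side
  have hcv : ∀ p, cv (big R) s c (3 * n + p) = cv (bigm R (3 * n)) s c (3 * n + p) := by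
    intro p
    rw [Bool.eq_iff_iff]
    constructor
    · intro h
      refine v8 (3 * n + p) (fun s' E u hAt h1 h2 h3 => ?_) h
      simp only [bigm, decide_eq_true_eq] at h3
      simp only [big, decide_eq_true_eq]
      exact h3.1
    · intro h
      refine w8 (3 * n + p) (fun s' E u hAt h1 h2 h3 => ?_) h
      simp only [big, decide_eq_true_eq] at h3
      simp only [bigm, decide_eq_true_eq]
      exact ⟨h3, by omega⟩
  have e1 : (fun p => cv (big R) s c (3 * n + p)) =
      fun p => cv (bigm R (3 * n)) s c (3 * n + p) := funext hcv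
  rw [e1]
  obtain ⟨-, hchg, -, -⟩ := hF L3 Γ P Z (rf (bigm R (3 * n)) s c) (fun _ => 0) (fun _ => 0)
    (fun j => cv (bigm R (3 * n)) s c j) (fun j => (w5 P Z hP j).symm)
  rw [r2, hlen, hP] at hchg
  have h2 := cuts_le_chg (fun j => cv (bigm R (3 * n)) s c j) (3 * n) n (4 * n) (by omega)
  refine h2.trans ?_
  have h3 : chg (fun j => cv (bigm R (3 * n)) s c j) (4 * n) ≤ 6 * k + 2 := by omega
  exact_mod_cast h3

end Pool.Agent.Z3.H86
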